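import Mathlib
import Pool.Agent.H5.EG.Spec2

set_option autoImplicit false

namespace Pool.Agent.H695.EG.Jensen

open Pool.Agent.H5.EG
open Metric Filter MeasureTheory

/-- the shifted power series -/
noncomputable def sh (h : PowerSeries ℂ) (ν : ℕ) : PowerSeries ℂ :=
  PowerSeries.mk fun n => PowerSeries.coeff (n + ν) h

theorem coeff_sh (h : PowerSeries ℂ) (ν n : ℕ) :
    PowerSeries.coeff n (sh h ν) = PowerSeries.coeff (n + ν) h := by
  simp [sh]

theorem rad_sh {h : PowerSeries ℂ} (hR : Rad h) (ν : ℕ) : Rad (sh h ν) := by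
  intro r hr0 hr1
  obtain ⟨R, hR1, hR2⟩ := exists_between hr1
  have hR0 : 0 < R := lt_of_le_of_lt hr0 hR1
  have h1 := hR R hR0.le hR2
  have h2 : Summable fun n => ‖PowerSeries.coeff (n + ν) h‖ * R ^ (n + ν) :=
    (summable_nat_add_iff (f := fun n => ‖PowerSeries.coeff n h‖ * R ^ n) ν).2 h1
  have h3 := h2.mul_right ((R ^ ν)⁻¹)
  refine Summable.of_nonneg_of_le (fun n => by positivity) (fun n => ?_) h3
  rw [coeff_sh, pow_add]
  have hRn : R ^ ν ≠ 0 := (pow_pos hR0 ν).ne'
  have e : ‖PowerSeries.coeff (n + ν) h‖ * (R ^ n * R ^ ν) * (R ^ ν)⁻¹ =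
      ‖PowerSeries.coeff (n + ν) h‖ * R ^ n := by
    field_simp
  rw [e]
  gcongr

theorem ev_sh {h : PowerSeries ℂ} (hR : Rad h) {ν : ℕ}
    (hlow : ∀ k < ν, PowerSeries.coeff k h = 0) {x : ℂ} (hx : ‖x‖ < 1) :
    ev h x = x ^ ν * ev (sh h ν) x := by
  have hs := (ev_summable hR hx).of_norm
  rw [ev, ev, ← hs.sum_add_tsum_nat_add ν]
  have h0 : ∑ i ∈ Finset.range ν, PowerSeries.coeff i h * x ^ i = 0 := by
    refine Finset.sum_eq_zero fun i hi => ?_
    rw [hlow i (Finset.mem_range.1 hi), zero_mul]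
  rw [h0, zero_add, ← tsum_mul_left]
  refine tsum_congr fun n => ?_
  rw [coeff_sh, pow_add]
  ring

theorem ev_zero (g : PowerSeries ℂ) : ev g 0 = PowerSeries.coeff 0 g := by
  rw [ev, tsum_eq_single 0]
  · simp
  · intro n hn
    simp [hn]

theorem jensen : S_jensen := by
  intro h ρ ν hR h0 h1 hlow hν
  have hRg := rad_sh hR ν
  have hg0 : ev (sh h ν) 0 ≠ 0 := by
    rw [ev_zero, coeff_sh, zero_add]
    exact hν
  have hρ : |ρ| = ρ := abs_of_pos h0
  have hcb : closedBall (0 : ℂ) |ρ| ⊆ ball 0 1 := by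
    rw [hρ]
    exact closedBall_subset_ball h1
  have hsp : sphere (0 : ℂ) |ρ| ⊆ ball 0 1 := sphere_subset_closedBall.trans hcb
  have hang : AnalyticOnNhd ℂ (ev (sh h ν)) (closedBall 0 |ρ|) := (ev_analytic hRg).mono hcb
  have hnz : (ev (sh h ν)) ⁻¹' {0}ᶜ ∈ codiscreteWithin (ball (0 : ℂ) 1) :=
    (ev_analytic hRg).preimage_zero_mem_codiscreteWithin hg0 (mem_ball_self one_pos)
      ⟨⟨0, mem_ball_self one_pos⟩, (convex_ball 0 1).isPreconnected⟩
  have hnz2 : (ev (sh h ν)) ⁻¹' {0}ᶜ ∈ codiscreteWithin (sphere (0 : ℂ) |ρ|) :=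
    codiscreteWithin_mono hsp hnz
  refine ⟨?_, ?_, ?_⟩
  · exact ((ev_analytic hR).mono hsp).meromorphicOn.circleIntegrable_log_norm
  · have hint : CircleIntegrable (fun x => Real.log ‖ev (sh h ν) x‖) 0 ρ :=
      ((ev_analytic hRg).mono hsp).meromorphicOn.circleIntegrable_log_norm
    have e1 : Real.circleAverage (fun x => Real.log ‖ev h x‖) 0 ρ =
        Real.circleAverage (fun x => (ν : ℝ) * Real.log ρ + Real.log ‖ev (sh h ν) x‖) 0 ρ := by
      refine Real.circleAverage_congr_codiscreteWithin ?_ h0.ne'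
      filter_upwards [hnz2, self_mem_codiscreteWithin (sphere (0 : ℂ) |ρ|)] with x hx hxs
      have hx1 : ‖x‖ < 1 := by simpa using hsp hxs
      have hxn : ‖x‖ = ρ := by
        rw [mem_sphere_zero_iff_norm, hρ] at hxs
        exact hxs
      have hne : ev (sh h ν) x ≠ 0 := hx
      rw [ev_sh hR hlow hx1, norm_mul, norm_pow, hxn,
        Real.log_mul (pow_pos h0 ν).ne' (norm_ne_zero_iff.2 hne), Real.log_pow]
    have e2 : Real.circleAverage (fun x => (ν : ℝ) * Real.log ρ + Real.log ‖ev (sh h ν) x‖) 0 ρ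
        = (ν : ℝ) * Real.log ρ + Real.circleAverage (fun x => Real.log ‖ev (sh h ν) x‖) 0 ρ := by
      rw [Real.circleAverage_fun_add (circleIntegrable_const _ _ _) hint,
        Real.circleAverage_const]
    have e3 := hang.circleAverage_log_norm h0.ne' hg0
    have e4 : 0 ≤ ∑ᶠ u, (MeromorphicOn.divisor (ev (sh h ν)) (closedBall (0 : ℂ) |ρ|) u : ℝ) *
        Real.log (ρ * ‖(0 : ℂ) - u‖⁻¹) := by
      refine finsum_nonneg fun u => ?_
      by_cases hu : u ∈ closedBall (0 : ℂ) |ρ|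
      · have hd : 0 ≤ MeromorphicOn.divisor (ev (sh h ν)) (closedBall (0 : ℂ) |ρ|) u :=
          MeromorphicOn.AnalyticOnNhd.divisor_nonneg hang u
        refine mul_nonneg (by exact_mod_cast hd) ?_
        by_cases hu0 : u = 0
        · subst hu0
          simp
        · have hun : 0 < ‖(0 : ℂ) - u‖ := by
            rw [zero_sub, norm_neg]
            exact norm_pos_iff.2 hu0
          have hle : ‖(0 : ℂ) - u‖ ≤ ρ := by
            rw [zero_sub, norm_neg]
            rw [mem_closedBall_zero_iff, hρ] at hu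
            exact hu
          refine Real.log_nonneg ?_
          rw [← div_eq_mul_inv]
          exact (one_le_div hun).2 hle
      · have hd : MeromorphicOn.divisor (ev (sh h ν)) (closedBall (0 : ℂ) |ρ|) u = 0 :=
          Function.locallyFinsuppWithin.apply_eq_zero_of_notMem _ hu
        rw [hd]
        simp
    have e5 : ev (sh h ν) 0 = PowerSeries.coeff ν h := by
      rw [ev_zero, coeff_sh, zero_add]
    rw [e1, e2, e3, e5]
    linarith
  · have h3 : {θ : ℝ | ev (sh h ν) (circleMap 0 ρ θ) ≠ 0} ∈ codiscrete ℝ :=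
      circleMap_preimage_codiscrete h0.ne' hnz2
    have h4 : {θ : ℝ | ev (sh h ν) (circleMap 0 ρ θ) ≠ 0} ∈ ae (volume.restrict Set.univ) :=
      ae_restrict_le_codiscreteWithin MeasurableSet.univ h3
    rw [Measure.restrict_univ] at h4
    filter_upwards [h4] with θ hθ
    have hx : ‖circleMap 0 ρ θ‖ = ρ := by
      rw [norm_circleMap_zero, hρ]
    have hx1 : ‖circleMap 0 ρ θ‖ < 1 := by
      rw [hx]
      exact h1
    rw [ev_sh hR hlow hx1]
    refine mul_ne_zero (pow_ne_zero _ ?_) hθ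
    rw [← norm_ne_zero_iff, hx]
    exact h0.ne'

end Pool.Agent.H695.EG.Jensen

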